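import Pool.Agent.W375.MT.Jet
import Pool.Agent.W749.MT.Com
import Pool.Agent.W346.MTCond

/-!
# Motivic zeta functions with a constructible set of origins and a condition on the leading
coefficient

`W` is a constructible set of origins, `E` a constructible set of nonzero numbers.  `JetG f W E N`
is the set of the `N`-jets `ψ` with `ψ(0) ∈ W` and `f(ψ) = a t ^ N mod t ^ (N + 1)`, `a ∈ E`.
-/

set_option autoImplicit false

namespace Pool.Agent.W375.MG

open MvPolynomial
open Pool.Agent.W428.MOT Pool.Agent.W375.MT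
open Pool.Agent.W426.SM (AffInd gord ford IsRay face)

variable {K : Type} [Field K] {n r : ℕ}

/-- `E` is a constructible set of nonzero numbers -/
structure Good (E : Set (AlgebraicClosure K)) : Prop where
  constr : ∀ {ι : Type} (F : Pt K ι → AlgebraicClosure K), IsPF F → Constr {z | F z ∈ E}
  zero : (0 : AlgebraicClosure K) ∉ E

theorem good_one : Good ({1} : Set (AlgebraicClosure K)) where
  constr := fun F hF => by
    have := Constr.eq hF (IsPF.one (K := K))
    simpa only [Set.mem_singleton_iff] using this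
  zero := by simp

theorem good_units : Good ({a | a ≠ 0} : Set (AlgebraicClosure K)) where
  constr := fun F hF => by
    have := (Constr.eqz hF).not
    exact this
  zero := by simp

/-- The `N`-jets `ψ` with `ψ(0) ∈ W` and `f(ψ) = a t ^ N mod t ^ (N + 1)`, `a ∈ E`. -/
def JetG (f : MvPolynomial (Fin n) K) (W : Set (Pt K (Fin n))) (E : Set (AlgebraicClosure K))
    (N : ℕ) : Set (Pt K (Fin n × Fin (N + 1))) :=
  {z | (fun i => z (i, 0)) ∈ W ∧ (∀ j < N, PowerSeries.coeff j (aeval (arc z) f) = 0) ∧
    PowerSeries.coeff N (aeval (arc z) f) ∈ E}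

/-- the jets of level `2 N + 1` -/
def JetG' (f : MvPolynomial (Fin n) K) (W : Set (Pt K (Fin n))) (E : Set (AlgebraicClosure K))
    (N : ℕ) : Set (Pt K (Fin n × Fin (2 * N + 1 + 1))) :=
  {z | (fun i => z (i, 0)) ∈ W ∧ (∀ j < N, PowerSeries.coeff j (aeval (arc z) f) = 0) ∧
    PowerSeries.coeff N (aeval (arc z) f) ∈ E}

/-- the jets of level `2 N + 1` with orders `u` -/
def strG (f : MvPolynomial (Fin n) K) (W : Set (Pt K (Fin n))) (E : Set (AlgebraicClosure K))
    (N : ℕ) (u : Fin n → ℕ) : Set (Pt K (Fin n × Fin (2 * N + 1 + 1))) :=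
  {z | ∀ i, (∀ j < u i, PowerSeries.coeff j (arc z i) = 0) ∧
      (u i ≤ N → PowerSeries.coeff (u i) (arc z i) ≠ 0)} ∩ JetG' f W E N

/-- the base point of `y` -/
noncomputable def wb {M : ℕ} (u : Fin n → ℕ) (y : Pt K (Fin n × Fin (M + 1))) : Pt K (Fin n) :=
  fun i => if u i = 0 then y (i, 0) else 0

/-- The base of the strata of type `τ`, `l = 0`. -/
def GB0 (A : Fin n → ℕ) (m : Fin r → Fin n → ℕ) (c : Fin r → K) (e : ℕ)
    (W : Set (Pt K (Fin n))) (E : Set (AlgebraicClosure K))
    (J : Finset (Fin n)) (τ : Finset (Fin r)) : Set (Pt K (Fin n)) :=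
  {z | (fun i => if i ∈ J then 0 else z i) ∈ W ∧ (∀ i, z i ≠ 0) ∧
    (∀ i ∈ free A m J τ, z i = 1) ∧ (∏ i, z i ^ A i) * gbar m (cb c) τ z ^ e ∈ E}

/-- The base of the strata of type `τ`, `l ≥ 1`. -/
def GB1 (A : Fin n → ℕ) (m : Fin r → Fin n → ℕ) (c : Fin r → K) (e : ℕ)
    (W : Set (Pt K (Fin n))) (E : Set (AlgebraicClosure K))
    (J : Finset (Fin n)) (τ : Finset (Fin r)) : Set (Pt K (Option (Fin n))) :=
  {z | (fun i => if i ∈ J then 0 else z (some i)) ∈ W ∧ (∀ i, z (some i) ≠ 0) ∧
    (∀ i ∈ free A m J τ, z (some i) = 1) ∧ gbar m (cb c) τ (fun i => z (some i)) = 0 ∧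
    (∏ i, z (some i) ^ A i) * z none ^ e ∈ E}

theorem constr_W {ι : Type} {W : Set (Pt K (Fin n))} (hW : Constr W) (F : Pt K ι → Pt K (Fin n))
    (hF : ∀ i, IsPF (fun z => F z i)) : Constr {z : Pt K ι | F z ∈ W} :=
  hW.preimage F hF

theorem isPF_wb {M : ℕ} (u : Fin n → ℕ) (i : Fin n) :
    IsPF (fun y : Pt K (Fin n × Fin (M + 1)) => wb u y i) := by
  unfold wb
  by_cases h : u i = 0
  · simp only [if_pos h]
    exact IsPF.coord _
  · simp only [if_neg h]
    exact IsPF.zero

theorem constr_JetG (f : MvPolynomial (Fin n) K) {W : Set (Pt K (Fin n))} (hW : Constr W)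
    {E : Set (AlgebraicClosure K)} (hE : Good E) (N : ℕ) : Constr (JetG f W E N) := by
  unfold JetG
  refine Constr.and (constr_W hW _ fun i => IsPF.coord _)
    (Constr.and (Constr.allLt _ fun j _ => ?_) (hE.constr _ ?_))
  · exact Constr.eqz (IsPA.aeval (fun i z => arc z i) (fun i => isPA_arc i) f j)
  · exact IsPA.aeval (fun i z => arc z i) (fun i => isPA_arc i) f N

theorem constr_JetG' (f : MvPolynomial (Fin n) K) {W : Set (Pt K (Fin n))} (hW : Constr W)
    {E : Set (AlgebraicClosure K)} (hE : Good E) (N : ℕ) : Constr (JetG' f W E N) := by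
  unfold JetG'
  refine Constr.and (constr_W hW _ fun i => IsPF.coord _)
    (Constr.and (Constr.allLt _ fun j _ => ?_) (hE.constr _ ?_))
  · exact Constr.eqz (IsPA.aeval (fun i z => arc z i) (fun i => isPA_arc i) f j)
  · exact IsPA.aeval (fun i z => arc z i) (fun i => isPA_arc i) f N

theorem constr_strG (f : MvPolynomial (Fin n) K) {W : Set (Pt K (Fin n))} (hW : Constr W)
    {E : Set (AlgebraicClosure K)} (hE : Good E) (N : ℕ) (u : Fin n → ℕ) :
    Constr (strG f W E N u) := by
  unfold strG
  refine Constr.inter (Constr.all fun i => Constr.and (Constr.allLt _ fun j _ => ?_)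
      (Constr.imp' fun _ => ?_)) (constr_JetG' f hW hE N)
  · exact Constr.eqz (isPA_arc i j)
  · exact (Constr.eqz (isPA_arc i (u i))).not

/-! ### (JET) -/

theorem jetG'_free (f : MvPolynomial (Fin n) K) (W : Set (Pt K (Fin n)))
    (E : Set (AlgebraicClosure K)) (N : ℕ)
    (z w : Pt K (Fin n × Fin (2 * N + 1 + 1))) (h : ∀ p, p ∉ F1 n N → w p = z p)
    (hz : z ∈ JetG' f W E N) : w ∈ JetG' f W E N := by
  obtain ⟨h1, h2, h3⟩ := hz
  have h4 : ∀ j ≤ N, PowerSeries.coeff j (aeval (arc w) f) =
      PowerSeries.coeff j (aeval (arc z) f) := by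
    refine coeff_aeval_congr f N (arc w) (arc z) ?_
    intro i k hk
    rw [coeff_arc _ _ _ (by omega), coeff_arc _ _ _ (by omega)]
    exact h _ (by simp only [F1, Finset.mem_filter, Finset.mem_univ, true_and]; omega)
  refine ⟨?_, fun j hj => ?_, ?_⟩
  · have : (fun i => w (i, 0)) = fun i => z (i, 0) := by
      funext i
      exact h (i, 0) (by simp [F1])
    rw [this]
    exact h1
  · rw [h4 j hj.le]
    exact h2 j hj
  · rw [h4 N le_rfl]
    exact h3

theorem jetG_eq {R : Type} [CommRing R] (M : Meas K R) (f : MvPolynomial (Fin n) K)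
    {W : Set (Pt K (Fin n))} (hW : Constr W) {E : Set (AlgebraicClosure K)} (hE : Good E)
    (N : ℕ) :
    M.χ _ (JetG' f W E N ∩ {z | ∀ p ∈ F1 n N, z p = 0}) = M.χ _ (JetG f W E N) := by
  refine M.iso _ _ ((constr_JetG' f hW hE N).inter (Constr.ballFinset _ fun p _ =>
    Constr.eqz (IsPF.coord _))) (constr_JetG f hW hE N) (rs N) (ex N)
    (regularOn_poly (fun p => IsPF.coord _) _) (regularOn_poly (fun p => ?_) _) ?_ ?_ ?_ ?_
  · unfold ex
    by_cases h : (p.2 : ℕ) < N + 1
    · simp only [dif_pos h]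
      exact IsPF.coord _
    · simp only [dif_neg h]
      exact IsPF.zero
  · rintro z ⟨⟨h1, h2, h2'⟩, h3⟩
    have h4 : ∀ j ≤ N, PowerSeries.coeff j (aeval (arc (rs N z)) f) =
        PowerSeries.coeff j (aeval (arc z) f) := by
      refine coeff_aeval_congr f N (arc (rs N z)) (arc z) ?_
      intro i k hk
      rw [coeff_arc _ _ _ (by omega), coeff_arc _ _ _ (by omega)]
      rfl
    refine ⟨h1, fun j hj => ?_, ?_⟩
    · rw [h4 j hj.le]
      exact h2 j hj
    · rw [h4 N le_rfl]
      exact h2'
  · rintro z ⟨h1, h2, h2'⟩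
    have h4 : ∀ j ≤ N, PowerSeries.coeff j (aeval (arc (ex N z)) f) =
        PowerSeries.coeff j (aeval (arc z) f) := by
      refine coeff_aeval_congr f N (arc (ex N z)) (arc z) ?_
      intro i k hk
      rw [coeff_arc _ _ _ (by omega), coeff_arc _ _ _ (by omega)]
      simp only [ex]
      rw [dif_pos (by omega)]
    refine ⟨⟨h1, fun j hj => ?_, ?_⟩, ?_⟩
    · rw [h4 j hj.le]
      exact h2 j hj
    · rw [h4 N le_rfl]
      exact h2'
    · intro p hp
      simp only [F1, Finset.mem_filter, Finset.mem_univ, true_and] at hp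
      simp only [ex]
      rw [dif_neg (by omega)]
  · rintro z ⟨-, h3⟩
    funext p
    simp only [ex, rs]
    split_ifs with h
    · rfl
    · exact (h3 p (by simp only [F1, Finset.mem_filter, Finset.mem_univ, true_and]; omega)).symm
  · rintro z -
    funext p
    simp only [ex, rs]
    rw [dif_pos p.2.2]

theorem jetG'_union (f : MvPolynomial (Fin n) K) (W : Set (Pt K (Fin n)))
    (E : Set (AlgebraicClosure K)) (N : ℕ) :
    JetG' f W E N = ⋃ u ∈ (Fintype.piFinset fun _ : Fin n => Finset.range (N + 2)),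
      strG f W E N u := by
  classical
  ext z
  simp only [Set.mem_iUnion, Fintype.mem_piFinset, Finset.mem_range, exists_prop]
  constructor
  · intro hz
    have hex : ∀ i, ∃ j, j = N + 1 ∨ PowerSeries.coeff j (arc z i) ≠ 0 := fun i =>
      ⟨N + 1, Or.inl rfl⟩
    have hle : ∀ i, Nat.find (hex i) ≤ N + 1 := fun i => Nat.find_min' (hex i) (Or.inl rfl)
    refine ⟨fun i => Nat.find (hex i), fun i => Nat.lt_succ_of_le (hle i), ?_, hz⟩
    intro i
    constructor
    · intro j hj
      have := Nat.find_min (hex i) hj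
      push Not at this
      exact this.2
    · intro hi
      rcases Nat.find_spec (hex i) with h | h
      · have hi' : Nat.find (hex i) ≤ N := hi
        omega
      · exact h
  · rintro ⟨u, -, -, h3⟩
    exact h3

/-- (JET) -/
theorem jet (h1 : S_Free) {R : Type} [CommRing R] (M : Meas K R) (f : MvPolynomial (Fin n) K)
    {W : Set (Pt K (Fin n))} (hW : Constr W) {E : Set (AlgebraicClosure K)} (hE : Good E)
    (N : ℕ) :
    M.χ (Fin n × Fin (N + 1)) (JetG f W E N) * M.L ^ (n * (N + 1)) =
      ∑ u ∈ (Fintype.piFinset fun _ : Fin n => Finset.range (N + 2)),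
        M.χ (Fin n × Fin (2 * N + 1 + 1)) (strG f W E N u) := by
  classical
  have e1 := h1 M (JetG' f W E N) ∅ (F1 n N) (fun _ => 0) (Finset.disjoint_empty_left _)
    (constr_JetG' f hW hE N)
    (fun z w h hz => jetG'_free f W E N z w (fun p hp => h p (by simp) hp) hz)
  simp only [Finset.notMem_empty, false_implies, implies_true, Set.ofPred_true, Set.inter_univ,
    Finset.empty_union, map_zero, Finset.card_empty, pow_zero, mul_one] at e1
  rw [card_F1, jetG_eq M f hW hE] at e1
  rw [← e1, jetG'_union f W E N]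
  refine chi_biUnion M _ _ (fun u _ => constr_strG f hW hE N u) ?_
  intro u hu v hv huv
  rw [Set.disjoint_left]
  rintro z ⟨h2, -⟩ ⟨h3, -⟩
  apply huv
  simp only [Fintype.mem_piFinset, Finset.mem_range] at hu hv
  funext i
  rcases lt_trichotomy (u i) (v i) with h | h | h
  · exact absurd ((h3 i).1 _ h) ((h2 i).2 (by have := hv i; omega))
  · exact h
  · exact absurd ((h2 i).1 _ h) ((h3 i).2 (by have := hu i; omega))

/-! ### (SHIFT) -/

theorem mem_Y0_zero (N : ℕ) (u : Fin n → ℕ) (y : Pt K (Fin n × Fin (2 * N + 1 + 1))) :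
    y ∈ Y0 (0 : Fin n → K) N u ↔
      (∀ i (j : Fin (2 * N + 1 + 1)), 2 * N + 1 - u i < (j : ℕ) → y (i, j) = 0) ∧
      ∀ i, u i ≤ N → y (i, 0) ≠ 0 := by
  constructor
  · rintro ⟨h1, h2, -⟩
    exact ⟨h1, h2⟩
  · rintro ⟨h1, h2⟩
    exact ⟨h1, h2, fun i hi => absurd rfl hi⟩

/-- the set of the `y` -/
def shG (f : MvPolynomial (Fin n) K) (W : Set (Pt K (Fin n))) (E : Set (AlgebraicClosure K))
    (N : ℕ) (u : Fin n → ℕ) : Set (Pt K (Fin n × Fin (2 * N + 1 + 1))) :=
  {y | wb u y ∈ W ∧ (∀ j < N, PowerSeries.coeff j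
        (aeval (fun i => PowerSeries.X ^ u i * arc y i) f) = 0) ∧
      PowerSeries.coeff N (aeval (fun i => PowerSeries.X ^ u i * arc y i) f) ∈ E}

theorem constr_shG (f : MvPolynomial (Fin n) K) {W : Set (Pt K (Fin n))} (hW : Constr W)
    {E : Set (AlgebraicClosure K)} (hE : Good E) (N : ℕ) (u : Fin n → ℕ) :
    Constr (shG f W E N u) := by
  unfold shG
  refine Constr.and (constr_W hW _ fun i => isPF_wb u i)
    (Constr.and (Constr.allLt _ fun j _ => ?_) (hE.constr _ ?_))
  · exact Constr.eqz (IsPA.aeval (fun i z => PowerSeries.X ^ u i * arc z i)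
      (fun i => IsPA_X_pow_mul (isPA_arc i) _) f j)
  · exact IsPA.aeval (fun i z => PowerSeries.X ^ u i * arc z i)
      (fun i => IsPA_X_pow_mul (isPA_arc i) _) f N

/-- (SHIFT) -/
theorem shift {R : Type} [CommRing R] (M : Meas K R) (f : MvPolynomial (Fin n) K)
    {W : Set (Pt K (Fin n))} (hW : Constr W) {E : Set (AlgebraicClosure K)} (hE : Good E)
    (N : ℕ) (hN : 1 ≤ N) (u : Fin n → ℕ) (hu : ∀ i, u i ≤ N + 1) :
    M.χ _ (strG f W E N u) = M.χ _ (Y0 (0 : Fin n → K) N u ∩ shG f W E N u) := by
  refine M.iso _ _ (constr_strG f hW hE N u)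
    ((MT.constr_Y0 0 N u).inter (constr_shG f hW hE N u))
    (sh u) (sh' u) (regularOn_poly (fun p => isPF_sh u p) _)
    (regularOn_poly (fun p => isPF_sh' u p) _) ?_ ?_ ?_ ?_
  · rintro z ⟨h2, h1, h3, h3'⟩
    have h4 : (fun i => PowerSeries.X ^ u i * arc (sh u z) i) = arc z := by
      funext i
      exact (arc_sh u z i (h2 i).1).symm
    refine ⟨(mem_Y0_zero N u _).2 ⟨?_, ?_⟩, ?_, ?_, ?_⟩
    · intro i j hj
      simp only [sh]
      rw [dif_neg (by have := hu i; omega)]
    · intro i hi
      have := (h2 i).2 hi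
      rw [coeff_arc _ _ _ (by omega)] at this
      simp only [sh]
      rw [dif_pos (by simp only [Fin.val_zero]; omega)]
      simpa using this
    · have h5 : wb u (sh u z) = fun i => z (i, 0) := by
        funext i
        simp only [wb]
        by_cases hi : u i = 0
        · rw [if_pos hi]
          simp only [sh]
          rw [dif_pos (by simp only [Fin.val_zero]; omega)]
          congr 2
          apply Fin.ext
          simp [hi]
        · rw [if_neg hi]
          have := (h2 i).1 0 (by omega)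
          rw [coeff_arc _ _ _ (by omega)] at this
          exact this.symm
      rw [h5]
      exact h1
    · rw [h4]
      exact h3
    · rw [h4]
      exact h3'
  · rintro y ⟨hy, h3, h4, h4'⟩
    obtain ⟨h1, h2⟩ := (mem_Y0_zero N u _).1 hy
    have h5 : ∀ i, arc (sh' u y) i = PowerSeries.X ^ u i * arc y i := fun i =>
      arc_sh' u y i (h1 i) (by have := hu i; omega)
    have h6 : arc (sh' u y) = fun i => PowerSeries.X ^ u i * arc y i := funext h5
    refine ⟨?_, ?_, ?_, ?_⟩
    · intro i
      rw [h5 i]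
      constructor
      · intro j hj
        rw [PowerSeries.coeff_X_pow_mul', if_neg (by omega)]
      · intro hi
        rw [PowerSeries.coeff_X_pow_mul', if_pos le_rfl, Nat.sub_self,
          coeff_arc _ _ _ (by omega)]
        exact h2 i hi
    · have h7 : (fun i => sh' u y (i, 0)) = wb u y := by
        funext i
        simp only [wb, sh']
        by_cases hi : u i = 0
        · rw [if_pos hi, if_pos (by simp only [Fin.val_zero]; omega)]
          congr 2
          apply Fin.ext
          simp
        · rw [if_neg hi, if_neg (by simp only [Fin.val_zero]; omega)]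
      rw [h7]
      exact h3
    · rw [h6]
      exact h4
    · rw [h6]
      exact h4'
  · rintro z ⟨h2, -⟩
    funext p
    obtain ⟨i, j⟩ := p
    simp only [sh', sh]
    split_ifs with h6 h7
    · congr 2
      apply Fin.ext
      simp only
      omega
    · exfalso
      have := j.2
      omega
    · have := (h2 i).1 (j : ℕ) (by omega)
      rw [coeff_arc _ _ _ j.2] at this
      exact this.symm
  · rintro y ⟨hy, -⟩
    obtain ⟨h1, h2⟩ := (mem_Y0_zero N u _).1 hy
    funext p
    obtain ⟨i, j⟩ := p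
    simp only [sh', sh]
    split_ifs with h6 h7
    · congr 2
      apply Fin.ext
      simp only
      omega
    · omega
    · rw [h1 i j (by have := hu i; omega)]

/-! ### (ORD) and (COND) -/

theorem ordG {F : Type} [Field F] (P G : PowerSeries F) (e p : ℕ) (he : 0 < e)
    (hP : PowerSeries.constantCoeff P ≠ 0) (E : Set F) (hE : (0 : F) ∉ E) :
    ((∀ k < p, PowerSeries.coeff k (P * G ^ e) = 0) ∧ PowerSeries.coeff p (P * G ^ e) ∈ E) ↔
      ∃ l, e * l = p ∧ (∀ k < l, PowerSeries.coeff k G = 0) ∧
        PowerSeries.constantCoeff P * (PowerSeries.coeff l G) ^ e ∈ E := by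
  constructor
  · rintro ⟨h, h'⟩
    have hG : ∃ l, PowerSeries.coeff l G ≠ 0 := by
      by_contra hcon
      push Not at hcon
      have : G = 0 := by
        ext k
        simpa using hcon k
      rw [this, zero_pow he.ne', mul_zero, map_zero] at h'
      exact hE h'
    classical
    set l := Nat.find hG with hl
    have hl0 : PowerSeries.coeff l G ≠ 0 := Nat.find_spec hG
    have hl1 : ∀ k < l, PowerSeries.coeff k G = 0 := by
      intro k hk
      have := Nat.find_min hG hk
      simpa using this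
    obtain ⟨U, hU⟩ := PowerSeries.X_pow_dvd_iff.mpr hl1
    have hU0 : PowerSeries.coeff l G = PowerSeries.constantCoeff U := by
      rw [hU, PowerSeries.coeff_X_pow_mul']
      simp
    have hPG : P * G ^ e = PowerSeries.X ^ (l * e) * (P * U ^ e) := by
      rw [hU, mul_pow, ← pow_mul]
      ring
    have hc : PowerSeries.constantCoeff (P * U ^ e) =
        PowerSeries.constantCoeff P * (PowerSeries.coeff l G) ^ e := by
      rw [map_mul, map_pow, hU0]
    have hle : l * e ≤ p := by
      by_contra hlt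
      rw [hPG, PowerSeries.coeff_X_pow_mul', if_neg hlt] at h'
      exact hE h'
    have hne : PowerSeries.constantCoeff P * (PowerSeries.coeff l G) ^ e ≠ 0 :=
      mul_ne_zero hP (pow_ne_zero _ hl0)
    by_cases hp : l * e = p
    · refine ⟨l, by rw [mul_comm]; exact hp, hl1, ?_⟩
      rw [← hp, hPG, PowerSeries.coeff_X_pow_mul', if_pos le_rfl, Nat.sub_self,
        PowerSeries.coeff_zero_eq_constantCoeff_apply, hc] at h'
      exact h'
    · have h2 := h (l * e) (lt_of_le_of_ne hle hp)
      rw [hPG, PowerSeries.coeff_X_pow_mul', if_pos le_rfl, Nat.sub_self,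
        PowerSeries.coeff_zero_eq_constantCoeff_apply, hc] at h2
      exact absurd h2 hne
  · rintro ⟨l, hlp, hl1, h1⟩
    obtain ⟨U, hU⟩ := PowerSeries.X_pow_dvd_iff.mpr hl1
    have hU0 : PowerSeries.coeff l G = PowerSeries.constantCoeff U := by
      rw [hU, PowerSeries.coeff_X_pow_mul']
      simp
    have hPG : P * G ^ e = PowerSeries.X ^ p * (P * U ^ e) := by
      rw [hU, mul_pow, ← pow_mul, ← hlp, mul_comm l e]
      ring
    constructor
    · intro k hk
      rw [hPG, PowerSeries.coeff_X_pow_mul', if_neg (by omega)]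
    · rw [hPG, PowerSeries.coeff_X_pow_mul', if_pos le_rfl, Nat.sub_self,
        PowerSeries.coeff_zero_eq_constantCoeff_apply, map_mul, map_pow, ← hU0]
      exact h1

/-- (COND) -/
theorem cond (A : Fin n → ℕ) (m : Fin r → Fin n → ℕ)
    (c : Fin r → K) (e : ℕ) (E : Set (AlgebraicClosure K)) (hE : Good E) (he : 0 < e) (N : ℕ)
    (u : Fin n → ℕ) (y : Pt K (Fin n × Fin (2 * N + 1 + 1))) (hy : ∀ i, u i ≤ N → y (i, 0) ≠ 0) :
      ((∀ j < N, PowerSeries.coeff j
          (aeval (fun i => PowerSeries.X ^ u i * arc y i) (sp A m c e)) = 0) ∧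
        PowerSeries.coeff N
          (aeval (fun i => PowerSeries.X ^ u i * arc y i) (sp A m c e)) ∈ E) ↔
        ∃ l, ford A m e u + e * l = N ∧
          (∀ k < l, PowerSeries.coeff k (gser m (cb c) (del m u) (arc y)) = 0) ∧
          (∏ i, y (i, 0) ^ A i) *
            (PowerSeries.coeff l (gser m (cb c) (del m u) (arc y))) ^ e ∈ E := by
  rw [Pool.Agent.W346.MTCond.aeval_sp]
  set F := ford A m e u with hF
  set G := gser m (cb c) (del m u) (arc y) with hG
  set P : PowerSeries (AlgebraicClosure K) := ∏ i, arc y i ^ A i with hP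
  have hPc : PowerSeries.constantCoeff P = ∏ i, y (i, 0) ^ A i := by
    rw [hP, map_prod]
    simp only [map_pow, Pool.Agent.W749.MT.constantCoeff_arc]
  by_cases hFN : F ≤ N
  · have hne : PowerSeries.constantCoeff P ≠ 0 := by
      rw [hPc]
      refine Finset.prod_ne_zero_iff.2 fun i _ => ?_
      rcases Nat.eq_zero_or_pos (A i) with h0 | h0
      · rw [h0, pow_zero]
        exact one_ne_zero
      · refine pow_ne_zero _ (hy i ?_)
        have h1 : u i ≤ u i * A i := Nat.le_mul_of_pos_right _ h0
        have h2 : u i * A i ≤ ∑ i, u i * A i :=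
          Finset.single_le_sum (f := fun i => u i * A i) (fun _ _ => Nat.zero_le _)
            (Finset.mem_univ i)
        have h3 : ∑ i, u i * A i ≤ F := by
          rw [hF]
          unfold ford
          exact Nat.le_add_right _ _
        omega
    have key := ordG P G e (N - F) he hne E hE.zero
    have h4 : ((∀ j < N, PowerSeries.coeff j (PowerSeries.X ^ F * (P * G ^ e)) = 0) ∧
          PowerSeries.coeff N (PowerSeries.X ^ F * (P * G ^ e)) ∈ E) ↔
        ((∀ k < N - F, PowerSeries.coeff k (P * G ^ e) = 0) ∧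
          PowerSeries.coeff (N - F) (P * G ^ e) ∈ E) := by
      rw [PowerSeries.coeff_X_pow_mul' (d := N), if_pos hFN]
      refine and_congr_left fun _ => ?_
      constructor
      · intro h5 k hk
        have h6 := h5 (k + F) (by omega)
        rwa [PowerSeries.coeff_X_pow_mul', if_pos (by omega), Nat.add_sub_cancel] at h6
      · intro h5 j hj
        rw [PowerSeries.coeff_X_pow_mul']
        split_ifs with h6
        · exact h5 (j - F) (by omega)
        · rfl
    rw [h4, key, hPc]
    constructor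
    · rintro ⟨l, h5, h6, h7⟩
      exact ⟨l, by omega, h6, h7⟩
    · rintro ⟨l, h5, h6, h7⟩
      exact ⟨l, by omega, h6, h7⟩
  · constructor
    · rintro ⟨-, h6⟩
      rw [PowerSeries.coeff_X_pow_mul', if_neg hFN] at h6
      exact absurd h6 hE.zero
    · rintro ⟨l, h5, -⟩
      omega

end Pool.Agent.W375.MG
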