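import Pool.Agent.W375.MG.Sum
import Pool.Agent.W63.MTFin
import Pool.Agent.W29.MTRat
import Pool.Agent.W230.MTZCF
import Pool.Agent.W346.MTCp1
import Pool.Agent.W346.MTCp2
import Pool.Agent.W417.MT.K0
import Pool.Agent.W417.MT.Free
import Pool.Agent.W417.MT.Tay
import Pool.Agent.W21.MTSub
import Pool.Agent.W440.MT.OrdNon
import Pool.Agent.W428.MOT.RootC

/-!
# Final assembly
-/

set_option autoImplicit false

namespace Pool.Agent.W375.MG

open MvPolynomial
open Pool.Agent.W428.MOT Pool.Agent.W375.MT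
open Pool.Agent.W426.SM (AffInd gord ford IsRay face)
open Pool.Agent.W63.MTFin (mapMeas geo_mul geo_mem X_mem C_mem poly_mem geo_sum L_mul ev ev_X_pow
  rat_mem)

/-- The motivic zeta function of `f` with origins in `W` and leading coefficients in `E`. -/
noncomputable def zetaG {K : Type} [Field K] {n : ℕ} (f : MvPolynomial (Fin n) K)
    (W : Set (Pt K (Fin n))) (E : Set (AlgebraicClosure K)) : PowerSeries (MK K) :=
  PowerSeries.mk fun N =>
    algebraMap (K0 K) (MK K) (cls (Fin n × Fin (N + 1)) (JetG f W E N)) *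
      (((Lu K) ^ (-((n * N : ℕ) : ℤ)) : (MK K)ˣ) : MK K)

theorem fin {k K : Type} [Field k] [Algebra k ℂ] [Field K] [Algebra k K] {n r : ℕ}
    (A : Fin n → ℕ) (m : Fin r → Fin n → ℕ) (c : Fin r → k) (e : ℕ)
    (hm : AffInd m) (hc : ∀ j, c j ≠ 0) (hr : 2 ≤ r) (he : 0 < e)
    (hA : ∀ i, A i ≠ 0 ∨ ∀ j, m j i ≠ 1) :
    ∃ S : Finset (ℤ × ℤ),
      (∀ p ∈ S, p.1 < 0 ∧ 0 < p.2 ∧ ∀ b : Polynomial ℂ,
        Pool.Agent.H628R4.TP.IsBFunction (sp A m (fun j => algebraMap k ℂ (c j)) e) b →
          b.eval ((p.1 : ℂ) / p.2) = 0) ∧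
      ∀ (W : Set (Pt K (Fin n))) (E : Set (AlgebraicClosure K)), Constr W → Good E →
        zetaG (sp A m (fun j => algebraMap k K (c j)) e) W E ∈ ratRing K S := by
  classical
  have h1 : S_K0 := Pool.Agent.W417.MT.K0.main
  have h3 : S_RAT := Pool.Agent.W29.MTRat.main Pool.Agent.W346.MTCp2.main
    Pool.Agent.W230.MTZCF.main
  have h4 : S_RootC := Pool.Agent.W428.MOT.RootC.main
  have h5 : S_CP1 := Pool.Agent.W346.MTCp1.main
  have hFree : S_Free := Pool.Agent.W417.MT.Free.main
  have hSub : S_Sub := Pool.Agent.W21.MTSub.main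
  have hTay : S_Tay := Pool.Agent.W417.MT.Tay.main
  have hNon : S_Non := Pool.Agent.W440.MT.non
  have hk : CharZero k := RingHom.charZero (algebraMap k ℂ)
  have hK : CharZero K := charZero_of_injective_algebraMap (algebraMap k K).injective
  have hr0 : 0 < r := by omega
  have hcC : ∀ j, algebraMap k ℂ (c j) ≠ 0 := fun j => by
    simpa using hc j
  have hcK : ∀ j, algebraMap k K (c j) ≠ 0 := fun j => by
    simpa using hc j
  choose l P hl hP using fun (J : Finset (Fin n)) (τ : Finset (Fin r)) => h3 A m e J τ hr0 he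
  set S : Finset (ℤ × ℤ) := insert (-1, (e : ℤ)) (Finset.univ.biUnion fun J : Finset (Fin n) =>
    Finset.univ.biUnion fun τ : Finset (Fin r) =>
    (l J τ).toFinset.image fun a => (-((∑ i, a i : ℕ) : ℤ), (ford A m e a : ℤ))) with hS
  have hS1 : ((-1 : ℤ), (e : ℤ)) ∈ S := Finset.mem_insert_self _ _
  have hS2 : ∀ J τ, ∀ a ∈ l J τ, (-((∑ i, a i : ℕ) : ℤ), (ford A m e a : ℤ)) ∈ S :=
    fun J τ a ha =>
    Finset.mem_insert_of_mem (Finset.mem_biUnion.2 ⟨J, Finset.mem_univ _, Finset.mem_biUnion.2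
      ⟨τ, Finset.mem_univ _, Finset.mem_image.2 ⟨a, List.mem_toFinset.2 ha, rfl⟩⟩⟩)
  refine ⟨S, fun p hp => ?_, ?_⟩
  · rcases Finset.mem_insert.1 hp with rfl | hp
    · refine ⟨by norm_num, Int.natCast_pos.2 he, fun b hb => ?_⟩
      have := (h4 A m (fun j => algebraMap k ℂ (c j)) e hm hcC hr he hA b hb).1
      have h6 : (((-1 : ℤ) : ℂ) / ((e : ℤ) : ℂ)) = -(1 / (e : ℂ)) := by
        push_cast
        ring
      simp only [h6]
      exact this
    · obtain ⟨J, -, hp⟩ := Finset.mem_biUnion.1 hp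
      obtain ⟨τ, -, hp⟩ := Finset.mem_biUnion.1 hp
      obtain ⟨a, ha, rfl⟩ := Finset.mem_image.1 hp
      obtain ⟨ha1, ha2⟩ := hl J τ a (List.mem_toFinset.1 ha)
      have hpos : 0 < ∑ i, a i := by
        by_contra hcon
        refine ha1.1 (funext fun i => ?_)
        have := Finset.sum_eq_zero_iff.1 (Nat.eq_zero_of_not_pos hcon) i (Finset.mem_univ i)
        exact this
      refine ⟨?_, Int.natCast_pos.2 ha2, fun b hb => ?_⟩
      · simp only [Left.neg_neg_iff]
        exact_mod_cast hpos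
      · have := (h4 A m (fun j => algebraMap k ℂ (c j)) e hm hcC hr he hA b hb).2 a ha1 ha2
        have h6 : (((-((∑ i, a i : ℕ) : ℤ) : ℤ) : ℂ) / ((ford A m e a : ℤ) : ℂ)) =
            -(((∑ i, a i : ℕ) : ℂ) / ford A m e a) := by
          push_cast
          ring
        simp only [h6]
        exact this
  · intro W E hW hE
    obtain ⟨M₀, hM₀⟩ := h1 K
    set M := mapMeas M₀ (algebraMap (K0 K) (MK K)) with hM
    set Y : MK K := (((Lu K)⁻¹ : (MK K)ˣ) : MK K) with hY
    have hL : M.L * Y = 1 := L_mul hM₀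
    have hsum := sum hFree hSub hTay hNon M A m (fun j => algebraMap k K (c j)) e hW hE hm hcK
      hr0 he Y hL
    -- the series
    set C : Finset (Fin n) → Finset (Fin r) → PowerSeries (MK K) := fun J τ =>
      PowerSeries.map (ev K) (PowerSeries.mk fun N => cp A m e J τ N N) with hCdef
    have hC : ∀ J τ, C J τ ∈ ratRing K S := fun J τ =>
      rat_mem _ (ford A m e) (P J τ) (l J τ) (fun a ha => ⟨(hl J τ a ha).2, hS2 J τ a ha⟩)
        (hP J τ)
    have hCc : ∀ J τ N, PowerSeries.coeff N (C J τ) =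
        Polynomial.eval₂ (Int.castRingHom (MK K)) Y (cp A m e J τ N N) := fun J τ N => by
      rw [hCdef, PowerSeries.coeff_map, PowerSeries.coeff_mk]
      rfl
    set D : Finset (Fin n) → Finset (Fin r) → PowerSeries (MK K) := fun J τ =>
      PowerSeries.mk fun N => ∑ l ∈ Finset.Icc 1 N,
        if e * l ≤ N then Y ^ l * PowerSeries.coeff (N - e * l) (C J τ) else 0
      with hDdef
    have hD : ∀ J τ, D J τ ∈ ratRing K S := by
      intro J τ
      have h6 := geo_sum Y (fun N => PowerSeries.coeff N (C J τ)) e he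
      have h7 := geo_mul (K := K) (-1) (e : ℤ) (by exact_mod_cast he)
      rw [Int.toNat_natCast, zpow_neg_one] at h7
      have h8 : D J τ = PowerSeries.C Y * PowerSeries.X ^ e * C J τ * geo K (-1) (e : ℤ) := by
        have h9 : PowerSeries.mk (fun N => PowerSeries.coeff N (C J τ)) = C J τ := by
          ext N
          rw [PowerSeries.coeff_mk]
        rw [h9] at h6
        rw [← h6, mul_assoc, h7, mul_one]
      rw [h8]
      exact (ratRing K S).mul_mem ((ratRing K S).mul_mem ((ratRing K S).mul_mem (C_mem _ _)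
        ((ratRing K S).pow_mem (X_mem _) _)) (hC J τ)) (geo_mem (p := (-1, (e : ℤ))) hS1)
    set F : PowerSeries (MK K) := ∑ J : Finset (Fin n), ∑ τ : Finset (Fin r),
      PowerSeries.C (M.L ^ (free A m J τ).card) *
      (PowerSeries.C (M.χ _ (GB0 A m (fun j => algebraMap k K (c j)) e W E J τ)) * C J τ +
        PowerSeries.C (M.χ _ (GB1 A m (fun j => algebraMap k K (c j)) e W E J τ)) * D J τ)
      with hF
    have hFmem : F ∈ ratRing K S := by
      refine (ratRing K S).sum_mem fun J _ => (ratRing K S).sum_mem fun τ _ =>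
        (ratRing K S).mul_mem (C_mem _ _)
        ((ratRing K S).add_mem ((ratRing K S).mul_mem (C_mem _ _) (hC J τ))
          ((ratRing K S).mul_mem (C_mem _ _) (hD J τ)))
    have hz : zetaG (sp A m (fun j => algebraMap k K (c j)) e) W E =
        F - PowerSeries.C (PowerSeries.coeff 0 F) + PowerSeries.C (PowerSeries.coeff 0
          (zetaG (sp A m (fun j => algebraMap k K (c j)) e) W E)) := by
      ext N
      by_cases hN : N = 0
      · subst hN
        rw [map_add, map_sub, PowerSeries.coeff_C, if_pos rfl, PowerSeries.coeff_C, if_pos rfl,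
          sub_self, zero_add]
      · rw [map_add, map_sub, PowerSeries.coeff_C, if_neg hN, PowerSeries.coeff_C, if_neg hN,
          sub_zero, add_zero, zetaG, PowerSeries.coeff_mk]
        have h6 := hsum N (by omega)
        have h7 : algebraMap (K0 K) (MK K) (cls (Fin n × Fin (N + 1))
            (JetG (sp A m (fun j => algebraMap k K (c j)) e) W E N)) *
            (((Lu K) ^ (-((n * N : ℕ) : ℤ)) : (MK K)ˣ) : MK K) =
            M.χ _ (JetG (sp A m (fun j => algebraMap k K (c j)) e) W E N) * Y ^ (n * N) := by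
          rw [zpow_neg, zpow_natCast, ← inv_pow, Units.val_pow_eq_pow_val, ← hM₀]
          rfl
        rw [h7, h6, hF, map_sum]
        refine Finset.sum_congr rfl fun J _ => ?_
        rw [map_sum]
        refine Finset.sum_congr rfl fun τ _ => ?_
        rw [PowerSeries.coeff_C_mul, map_add, PowerSeries.coeff_C_mul, PowerSeries.coeff_C_mul,
          hCc, hDdef, PowerSeries.coeff_mk, Finset.mul_sum]
        congr 2
        refine Finset.sum_congr rfl fun i _ => ?_
        split_ifs with hi
        · rw [hCc, h5 A m e J τ hr0 he N (N - e * i) (Nat.sub_le _ _), mul_assoc]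
        · rw [mul_zero]
    rw [hz]
    exact (ratRing K S).add_mem ((ratRing K S).sub_mem hFmem (C_mem _ _)) (C_mem _ _)

end Pool.Agent.W375.MG
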