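import Pool.Agent.W375.MG.Fin

/-!
# The two zeta functions
-/

set_option autoImplicit false

namespace Pool.Agent.W375.MG

open MvPolynomial
open Pool.Agent.W428.MOT

section

variable {K : Type} [Field K] {n : ℕ}

/-- The set of the `d`-jets `φ ∈ (k̄[t] / t ^ (d + 1)) ^ n` with `φ(0) ∈ W` and
`f(φ) = t ^ d mod t ^ (d + 1)`. -/
def JetW (f : MvPolynomial (Fin n) K) (W : Set (Pt K (Fin n))) (d : ℕ) :
    Set (Pt K (Fin n × Fin (d + 1))) :=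
  {z | (fun i => z (i, 0)) ∈ W ∧
    ∀ j ≤ d, PowerSeries.coeff j (aeval (arc z) f) = if j = d then 1 else 0}

/-- The motivic zeta function `∑_{d ≥ 0} [X_{d,1}] 𝕃 ^ (- n d) T ^ d` of the jets with origin
in `W`. -/
noncomputable def zetaW (f : MvPolynomial (Fin n) K) (W : Set (Pt K (Fin n))) :
    PowerSeries (MK K) :=
  PowerSeries.mk fun d =>
    algebraMap (K0 K) (MK K) (cls (Fin n × Fin (d + 1)) (JetW f W d)) *
      (((Lu K) ^ (-((n * d : ℕ) : ℤ)) : (MK K)ˣ) : MK K)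

/-- The set of the `l`-jets `φ` with `φ(0) ∈ W` and `ord_t f(φ) = l`. -/
def JetOrd (f : MvPolynomial (Fin n) K) (W : Set (Pt K (Fin n))) (l : ℕ) :
    Set (Pt K (Fin n × Fin (l + 1))) :=
  {z | (fun i => z (i, 0)) ∈ W ∧ (∀ j < l, PowerSeries.coeff j (aeval (arc z) f) = 0) ∧
    PowerSeries.coeff l (aeval (arc z) f) ≠ 0}

/-- The (naive) motivic zeta function of Denef and Loeser
`𝕃 ^ (- n) ∑_{l ≥ 0} [{φ : φ(0) ∈ W, ord f(φ) = l}] (𝕃 ^ (- n) T) ^ l`. -/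
noncomputable def zetaOrd (f : MvPolynomial (Fin n) K) (W : Set (Pt K (Fin n))) :
    PowerSeries (MK K) :=
  PowerSeries.C (((Lu K) ^ (-(n : ℤ)) : (MK K)ˣ) : MK K) * PowerSeries.mk fun l =>
    algebraMap (K0 K) (MK K) (cls (Fin n × Fin (l + 1)) (JetOrd f W l)) *
      (((Lu K) ^ (-((n * l : ℕ) : ℤ)) : (MK K)ˣ) : MK K)

/-- `s₀` is a pole of `Z`: `Z` does not belong to the subring of `𝓜_K[[T]]` generated by `𝓜_K`,
`T` and the `(1 - 𝕃 ^ a T ^ b)⁻¹`, `a ∈ ℤ`, `b > 0`, `a / b ≠ s₀`. -/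
def IsPole (Z : PowerSeries (MK K)) (s₀ : ℚ) : Prop :=
  Z ∉ ratRing K {p | 0 < p.2 ∧ ((p.1 : ℚ) / p.2) ≠ s₀}

theorem jetW_eq (f : MvPolynomial (Fin n) K) (W : Set (Pt K (Fin n))) (d : ℕ) :
    JetW f W d = JetG f W {1} d := by
  ext z
  simp only [JetW, JetG, Set.mem_ofPred_eq, Set.mem_singleton_iff]
  refine and_congr_right fun _ => ?_
  constructor
  · intro h
    refine ⟨fun j hj => ?_, ?_⟩
    · rw [h j hj.le, if_neg (by omega)]
    · rw [h d le_rfl, if_pos rfl]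
  · rintro ⟨h1, h2⟩ j hj
    by_cases h : j = d
    · rw [h, h2, if_pos rfl]
    · rw [h1 j (by omega), if_neg h]

theorem zetaW_eq (f : MvPolynomial (Fin n) K) (W : Set (Pt K (Fin n))) :
    zetaW f W = zetaG f W {1} := by
  unfold zetaW zetaG
  simp only [jetW_eq]

theorem zetaOrd_eq (f : MvPolynomial (Fin n) K) (W : Set (Pt K (Fin n))) :
    zetaOrd f W = PowerSeries.C (((Lu K) ^ (-(n : ℤ)) : (MK K)ˣ) : MK K) *
      zetaG f W {a | a ≠ 0} := rfl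

theorem ratRing_mono {S T : Set (ℤ × ℤ)} (h : S ⊆ T) : ratRing K S ≤ ratRing K T := by
  refine Algebra.adjoin_mono ?_
  rintro g (hg | ⟨p, hp, rfl⟩)
  · exact Or.inl hg
  · exact Or.inr ⟨p, h hp, rfl⟩

end

/-- the poles of the naive zeta function are roots -/
theorem pole_root {n r : ℕ} (A : Fin n → ℕ) (m : Fin r → Fin n → ℕ) (c : Fin r → ℂ) (e : ℕ)
    (hm : Pool.Agent.W426.SM.AffInd m) (hc : ∀ j, c j ≠ 0) (hr : 2 ≤ r) (he : 0 < e)
    (hA : ∀ i, A i ≠ 0 ∨ ∀ j, m j i ≠ 1) (W : Set (Pt ℂ (Fin n))) (hW : Constr W)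
    (s₀ : ℚ) (hs : IsPole (zetaOrd (sp A m c e) W) s₀) (b : Polynomial ℂ)
    (hb : Pool.Agent.H628R4.TP.IsBFunction (sp A m c e) b) : b.eval (s₀ : ℂ) = 0 := by
  obtain ⟨S, hS, hz⟩ := fin (k := ℂ) (K := ℂ) A m c e hm hc hr he hA
  by_contra hne
  apply hs
  have h1 : (S : Set (ℤ × ℤ)) ⊆ {p | 0 < p.2 ∧ ((p.1 : ℚ) / p.2) ≠ s₀} := by
    intro p hp
    obtain ⟨-, h2, h3⟩ := hS p hp
    refine ⟨h2, fun h4 => hne ?_⟩
    rw [← h4]
    have := h3 b hb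
    push_cast
    exact this
  have h2 := hz W {a | a ≠ 0} hW good_units
  rw [zetaOrd_eq]
  exact Subalgebra.mul_mem _ (Pool.Agent.W63.MTFin.C_mem _ _) (ratRing_mono h1 h2)

end Pool.Agent.W375.MG
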