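import Pool.Agent.W375.MG.Defs

/-!
# The strata with `l = 0`
-/

set_option autoImplicit false

namespace Pool.Agent.W375.MG

open MvPolynomial
open Pool.Agent.W428.MOT Pool.Agent.W749.MT
open Pool.Agent.W426.SM (AffInd gord ford IsRay face)

variable {K : Type} [Field K] {n r : ℕ}

theorem wb_congr {M : ℕ} (u : Fin n → ℕ) (y w : Pt K (Fin n × Fin (M + 1)))
    (h : ∀ i, u i = 0 → w (i, 0) = y (i, 0)) : wb u w = wb u y := by
  funext i
  simp only [wb]
  by_cases hi : u i = 0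
  · rw [if_pos hi, if_pos hi, h i hi]
  · rw [if_neg hi, if_neg hi]

theorem wb_eq {M : ℕ} {J : Finset (Fin n)} {u : Fin n → ℕ} (hA : Adm J u)
    (y : Pt K (Fin n × Fin (M + 1))) : wb u y = fun i => if i ∈ J then 0 else y (i, 0) := by
  funext i
  simp only [wb]
  by_cases hi : u i = 0
  · rw [if_pos hi, if_neg (fun h => (hA i).2 h hi)]
  · rw [if_neg hi, if_pos ((hA i).1 hi)]

/-- (STB) -/
theorem stB (h1 : S_Free) (h2 : S_Tay) {R : Type} [CommRing R] (M : Meas K R)
    (A : Fin n → ℕ) (m : Fin r → Fin n → ℕ) (c : Fin r → K) (e : ℕ)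
    {W : Set (Pt K (Fin n))} (hW : Constr W) {E : Set (AlgebraicClosure K)} (hE : Good E)
    (he : 0 < e) (J : Finset (Fin n)) (N : ℕ) (u : Fin n → ℕ) (hA : Adm J u)
    (hf : ford A m e u = N) :
    M.χ _ (Y0 (0 : Fin n → K) N u ∩ {y | wb u y ∈ W ∧ (∏ i, y (i, 0) ^ A i) *
        (PowerSeries.coeff 0 (gser m (cb c) (del m u) (arc y))) ^ e ∈ E}) =
      M.χ _ (GB0 A m c e W E J (amin m u)) *
        (M.L - 1) ^ ((free A m J (amin m u)).filter fun i => u i ≤ N).card *
        M.L ^ ((free A m J (amin m u)).filter fun i => ¬ u i ≤ N).card *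
        M.L ^ (∑ i, (2 * N + 1 - u i)) := by
  classical
  set τ := amin m u with hτ
  set Fr := free A m J τ with hFr
  have hFJ : ∀ i ∈ Fr, i ∈ J ∧ A i = 0 ∧ ∀ j ∈ τ, m j i = 0 := fun i hi =>
    (mem_free A m J τ i).1 hi
  set T : Set (Pt K (Fin n × Fin (2 * N + 1 + 1))) :=
    {y | wb u y ∈ W ∧
      (∏ i, y (i, 0) ^ A i) * (gbar m (cb c) τ (fun i => y (i, 0))) ^ e ∈ E} with hT
  have hTc : Constr T := by
    refine Constr.and (constr_W hW _ fun i => isPF_wb u i) (hE.constr _ ?_)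
    exact (IsPF_prod A (fun i => (i, 0))).mul ((IsPF_gbar m c τ (fun i => (i, 0))).pow e)
  have hTe : {y : Pt K (Fin n × Fin (2 * N + 1 + 1)) | wb u y ∈ W ∧ (∏ i, y (i, 0) ^ A i) *
        (PowerSeries.coeff 0 (gser m (cb c) (del m u) (arc y))) ^ e ∈ E} = T := by
    ext y
    simp only [hT, Set.mem_ofPred_eq]
    rw [(h2 m (cb c) (del m u) (arc y)).1, filter_del]
    simp only [Pool.Agent.W749.MT.constantCoeff_arc]
    exact Iff.rfl
  have hdep : ∀ y w : Pt K (Fin n × Fin (2 * N + 1 + 1)), (∀ i, i ∉ Fr → w (i, 0) = y (i, 0)) →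
      (∀ p ∈ (∅ : Finset (Fin n × Fin (2 * N + 1 + 1))), w p = y p) → y ∈ T → w ∈ T := by
    intro y w h _ hy
    obtain ⟨hy1, hy2⟩ := hy
    refine ⟨?_, ?_⟩
    · rw [wb_congr u y w fun i hi => h i fun hc => (hA i).2 (hFJ i hc).1 hi]
      exact hy1
    · have e1 : ∏ i, w (i, 0) ^ A i = ∏ i, y (i, 0) ^ A i := by
        refine prod_congr' A (fun i => w (i, 0)) (fun i => y (i, 0)) fun i hi => ?_
        refine h i fun hc => hi (hFJ i hc).2.1
      have e2 : gbar m (cb c) τ (fun i => w (i, 0)) = gbar m (cb c) τ (fun i => y (i, 0)) := by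
        refine gbar_congr m (cb c) τ _ _ fun i hi => ?_
        refine h i fun hc => ?_
        obtain ⟨j, hj, hm⟩ := hi
        exact hm ((hFJ i hc).2.2 j hj)
      rw [e1, e2]
      exact hy2
  have key := freeN h1 M (0 : Fin n → K) N u Fr (fun i _ => rfl)
    (fun i hi => le_of_not_free A m e J u N he hA hf.le i hi) ∅ (Finset.empty_subset _) T hTc hdep
  rw [Finset.card_empty, pow_zero, mul_one] at key
  rw [hTe, key]
  congr 3
  have hB : Constr (GB0 A m c e W E J τ) := by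
    refine Constr.and ?_ (Constr.and ?_ (Constr.and ?_ ?_))
    · refine constr_W hW (fun z i => if i ∈ J then 0 else z i) fun i => ?_
      by_cases h : i ∈ J
      · simpa only [if_pos h] using IsPF.zero (K := K)
      · simpa only [if_neg h] using IsPF.coord (K := K) i
    · exact Constr.all fun i => Constr.ne (IsPF.coord _) IsPF.zero
    · exact Constr.ballFinset _ fun i _ => Constr.eq (IsPF.coord _) IsPF.one
    · exact hE.constr _ ((IsPF_prod A id).mul ((IsPF_gbar m c τ id).pow e))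
  refine M.iso _ _ (constr_Nrm 0 N Fr ∅ T hTc) hB (fun y i => y (i, 0))
    (fun z p => if (p.2 : ℕ) = 0 then z p.1 else 0) ?_ ?_ ?_ ?_ ?_ ?_
  · exact regularOn_poly (fun i => IsPF.coord _) _
  · refine regularOn_poly (fun p => ?_) _
    by_cases h : (p.2 : ℕ) = 0
    · simpa only [if_pos h] using IsPF.coord (K := K) p.1
    · simpa only [if_neg h] using IsPF.zero (K := K)
  · rintro y ⟨⟨hy1, hy2, hy3, hy4⟩, hy5, hy6⟩
    rw [wb_eq hA] at hy5
    refine ⟨hy5, ?_, hy4, hy6⟩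
    intro i
    by_cases h : i ∈ Fr
    · show y (i, 0) ≠ 0
      rw [hy4 i h]
      exact one_ne_zero
    · exact hy2 i h
  · rintro z ⟨hz1, hz2, hz3, hz4⟩
    have h0 : ((0 : Fin (2 * N + 1 + 1)) : ℕ) = 0 := rfl
    refine ⟨⟨?_, ?_, ?_, ?_⟩, ?_, ?_⟩
    · intro p hp _
      exact if_neg hp.ne'
    · intro i hi
      show (if ((0 : Fin (2 * N + 1 + 1)) : ℕ) = 0 then z i else 0) ≠ 0
      rw [if_pos h0]
      exact hz2 i
    · intro i hi
      exact absurd rfl hi
    · intro i hi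
      show (if ((0 : Fin (2 * N + 1 + 1)) : ℕ) = 0 then z i else 0) = _
      rw [if_pos h0]
      exact hz3 i hi
    · rw [wb_eq hA]
      simp only [if_pos h0]
      exact hz1
    · show (∏ i, (if ((0 : Fin (2 * N + 1 + 1)) : ℕ) = 0 then z i else 0) ^ A i) *
        (gbar m (cb c) τ (fun i => if ((0 : Fin (2 * N + 1 + 1)) : ℕ) = 0 then z i else 0)) ^ e ∈ E
      simp only [if_pos h0]
      exact hz4
  · rintro y ⟨⟨hy1, hy2, hy3, hy4⟩, hy5⟩
    funext p
    show (if (p.2 : ℕ) = 0 then y (p.1, 0) else 0) = y p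
    by_cases h : (p.2 : ℕ) = 0
    · rw [if_pos h]
      congr 1
      refine Prod.ext rfl ?_
      exact Fin.ext h.symm
    · rw [if_neg h]
      exact (hy1 p (Nat.pos_of_ne_zero h) (Finset.notMem_empty p)).symm
  · intro z _
    funext i
    show (if ((0 : Fin (2 * N + 1 + 1)) : ℕ) = 0 then z i else 0) = z i
    exact if_pos rfl

end Pool.Agent.W375.MG
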